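import Pool.Agent.N327.AD.Space

/-!
The criterion for the compression in the direction of the time derivative, internal form.
-/

set_option autoImplicit false
set_option linter.unusedSectionVars false

open MeasureTheory Set Filter Topology
open scoped InnerProductSpace ENNReal ContDiff NNReal

namespace Pool.Agent.N327.AD

open H772R2.NS H772R2.NS.Pub H772R2.NSR H772R2.NSG
open Pool.Agent.W795.TQ
open Pool.Agent.Y303.RA (Hom hom_tensL rate)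
open Pool.Agent.R462.HC (FB)
open Pool.Agent.N327.AC (core mem_ae)

/-- the exponents of a Serrin class for the gradient -/
theorem serrin_exp2 {a b : ℝ≥0∞} (hab : 2 / a + 3 / b = 2) (ha : a ≠ ⊤) :
    3 ≤ 2 * b ∧ (3 / (2 * b)).toReal < 1 ∧ a ≠ 0 ∧ a.toReal = 1 / (1 - (3 / (2 * b)).toReal) := by
  have ha0 : a ≠ 0 := by
    rintro rfl
    rw [ENNReal.div_zero (by norm_num), top_add] at hab
    exact absurd hab (by simp)
  have hb0 : b ≠ 0 := by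
    rintro rfl
    rw [ENNReal.div_zero (by norm_num), add_top] at hab
    exact absurd hab (by simp)
  have h2 : 2 / a ≤ 2 := by
    conv_rhs => rw [← hab]
    exact le_self_add
  have h3 : 3 / b ≤ 2 := by
    conv_rhs => rw [← hab, add_comm]
    exact le_self_add
  have hb : 3 ≤ 2 * b := by
    rcases eq_or_ne b ⊤ with h | h
    · rw [h]; simp
    · rwa [ENNReal.div_le_iff hb0 h] at h3
  have e0 : (3 / (2 * b)).toReal = (3 / b).toReal / 2 := by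
    rw [ENNReal.toReal_div, ENNReal.toReal_div, ENNReal.toReal_mul]
    have e2 : (2 : ℝ≥0∞).toReal = 2 := by simp
    rw [e2, div_div, mul_comm b.toReal]
  have hr := congrArg ENNReal.toReal hab
  rw [ENNReal.toReal_add (ne_top_of_le_ne_top (by norm_num) h2)
    (ne_top_of_le_ne_top (by norm_num) h3), ENNReal.toReal_div] at hr
  have hap : 0 < a.toReal := ENNReal.toReal_pos ha0 ha
  have e2 : (2 : ℝ≥0∞).toReal = 2 := by simp
  rw [e2] at hr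
  have hp : 0 < 2 / a.toReal := by positivity
  refine ⟨hb, by rw [e0]; linarith, ha0, ?_⟩
  have : 1 - (3 / (2 * b)).toReal = 1 / a.toReal := by
    rw [e0]
    have : 1 / a.toReal = (2 / a.toReal) / 2 := by ring
    rw [this]
    linarith
  rw [this]
  field_simp

theorem mid (hit : S_iter) (hode : S_ode) (htp : S_dtp) (he1 : S_est1) (he2 : S_est2)
    (hloc : S_loc) (huni : S_uni) (hun : S_univ) {θ K : ℝ} (hθ : 0 ≤ θ) (hθ1 : θ < 1) (hK : 0 ≤ K)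
    (hK1 : K < 3 / 4) : ∃ κ : ℝ, 0 < κ ∧
    ∀ (Ω : Set E3), IsOpen Ω → Bornology.IsBounded Ω → ∀ (ν T : ℝ), 0 < ν → 0 < T →
    ∀ (F F' : ℝ → L2M Ω), MemLp F' 2 (volume.restrict (Ioc 0 T)) →
    (∀ a b, 0 ≤ a → a ≤ b → b ≤ T → F b - F a = ∫ s in a..b, F' s) →
    ∀ (u : ℝ → L2V Ω) (z : ℝ → L2M Ω), AEStronglyMeasurable u (volume.restrict (Ioc 0 T)) →
    (∀ᵐ t ∂(volume.restrict (Ioc 0 T)), (u t, z t) ∈ graphW Ω) →
    MemLp z 2 (volume.restrict (Ioc 0 T)) →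
    (∀ φ : E3 → E3, H772R2.NS.IsTest Ω φ → ∀ t ∈ Icc 0 T,
      (∫ x in (show Set R3 from Ω), ⟪L2.fn (Ω := Ω) (E := R3) (u t) x, (φ : R3 → R3) x⟫_ℝ)
        - (∫ x in (show Set R3 from Ω), ⟪L2.fn (Ω := Ω) (E := R3) (u 0) x, (φ : R3 → R3) x⟫_ℝ)
      = ∫ s in (0 : ℝ)..t, Pub.rhs (Ω := Ω) ν (u s) (z s) (F s) φ) →
    (∀ t ∈ Icc 0 T, ‖u t‖ ^ 2 / 2 + ν * (∫ s in (0 : ℝ)..t, ‖z s‖ ^ 2)
      ≤ ‖u 0‖ ^ 2 / 2 + ∫ s in (0 : ℝ)..t, ⟪F s, z s⟫_ℝ) →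
    ∀ z0 : L2M Ω, (u 0, z0) ∈ graphW Ω →
    (∃ h : L2V Ω, ∀ φ : E3 → E3, H772R2.NS.IsTest Ω φ →
      Pub.rhs (Ω := Ω) ν (u 0) z0 (F 0) φ
        = ∫ x in (show Set R3 from Ω), ⟪L2.fn (Ω := Ω) (E := R3) h x, (φ : R3 → R3) x⟫_ℝ) →
    (∃ u' G1 G', IsStrong (show Set R3 from Ω) ν T F u u' G1 G') ∨
    ∃ τ ∈ Ioc 0 T, ∃ (u' : ℝ → L2V Ω) (G1 G' : ℝ → L2M Ω),
      (∀ t ∈ Ioo 0 τ, IsStrong (show Set R3 from Ω) ν t F u u' G1 G') ∧
      ∀ (a b : ℝ≥0∞) (w g : ℝ → E3 → ℝ) (B : ℝ → ℝ) (t1 : ℝ), 2 / a + 3 / b = 2 → a ≠ ⊤ →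
        t1 < τ → MemLp B a (volume.restrict (Ioo t1 τ)) →
        ¬ ∀ᵐ t ∂(volume.restrict (Ioo t1 τ)),
          AEStronglyMeasurable (w t) ((volume : Measure E3).restrict Ω) ∧
          eLpNorm (w t) b ((volume : Measure E3).restrict Ω) ≤ ENNReal.ofReal (B t) ∧
          AEStronglyMeasurable (g t) ((volume : Measure E3).restrict Ω) ∧
          eLpNorm (g t) 1 ((volume : Measure E3).restrict Ω)
            ≤ ENNReal.ofReal (κ * ν ^ (5 / 2 : ℝ) * (τ - t) ^ (-(5 / 2) : ℝ)) ∧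
          ∃ W : E3 → ℝ, FB Ω W ∧ ∀ᵐ x ∂((volume : Measure E3).restrict Ω),
            -⟪G1 t x, tens (u' t x)⟫_ℝ ≤
              (θ * ν * W x + K / (τ - t) + w t x) * ‖u' t x‖ ^ 2 + g t x := by
  obtain ⟨c, hc, hU⟩ := hun
  obtain ⟨κ₀, hκ₀, hrate⟩ := rate hit hode htp he1 he2 hloc huni c hc
  set ε := (1 - θ) / 2 with hε
  have hε0 : 0 < ε := by rw [hε]; linarith
  have hq : 0 < 3 / 2 - 2 * K := by linarith
  refine ⟨κ₀ ^ 2 * (3 / 2 - 2 * K) / 8, by positivity, ?_⟩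
  intro Ω hΩ hb ν T hν hT F F' hF1 hF u z hmeas hmem hz2 heqn hen z0 h0 hg
  obtain ⟨C, Fr⟩ := exists_frame hΩ hb
  obtain ⟨g0, hg0⟩ := hg
  have hm : MeasurableSet Ω := hΩ.measurableSet
  have hcomp : ∀ p ∈ graphW Ω, ⟪F 0 - ν • z0 + tensL (u 0), p.2⟫_ℝ = ⟪g0, p.1⟫_ℝ := by
    refine compat_ext ?_
    rintro p ⟨φ, k1, k2, k3⟩
    rw [← pub_rhs hm ν (F 0) h0 k3, ← pub_inner (Ω := Ω) g0 k2]
    exact hg0 φ k1
  have hFc : ContinuousOn F (Icc 0 T) := prim_cont hF1 hF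
  have hLH := lh_mid hΩ hFc Fr hmeas hmem hz2 heqn hen
  rcases hrate (L2V Ω) (L2M Ω) (graphW Ω) tensL C ν T F F' (u 0) g0 z0 u z Fr (hU _ hΩ)
    (rellich_W hΩ hb) hν hT ⟨hF1, hF⟩ h0 hcomp hLH with ⟨w, w1, y, y1, k1, k2⟩ | ⟨τ, hτ, k1, _, k3⟩
  · exact Or.inl ⟨w1, y, y1, strong_of_str hΩ hT k1 k2⟩
  refine Or.inr ⟨τ, hτ, deriv u, gz (graphW Ω) u, deriv (gz (graphW Ω) u),
    fun t ht => strong_of_str hΩ ht.1 (k1 t ht) fun _ _ => rfl, ?_⟩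
  intro a b w g B t1 hab ha ht1 hB hyp
  obtain ⟨hb3, hb1, ha0, hae⟩ := serrin_exp2 hab ha
  set s := (3 / (2 * b)).toReal with hs
  have hs0 : 0 ≤ s := ENNReal.toReal_nonneg
  set Cst : ℝ := (((CS : ℝ) ^ s) ^ 2) ^ (1 / (1 - s)) * (ε * ν) ^ (-(s / (1 - s))) with hCst
  have hCst0 : 0 ≤ Cst := by positivity
  have hΛi : IntegrableOn (fun t => Cst * ‖B t‖ ^ (1 / (1 - s))) (Ioo t1 τ) := by
    have := (hB.integrable_norm_rpow ha0 ha).const_mul Cst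
    rw [hae] at this
    exact this
  have hν52 : 0 < ν ^ (5 / 2 : ℝ) := Real.rpow_pos_of_pos hν _
  set σ := κ₀ ^ 2 * (3 / 2 - 2 * K) / 8 * ν ^ (5 / 2 : ℝ) with hσ
  have hσ0 : 0 ≤ σ := by positivity
  have hσ1 : 8 * σ ≤ κ₀ ^ 2 * ν ^ (5 / 2 : ℝ) * (3 / 2 - 2 * K) := by
    rw [hσ]
    apply le_of_eq
    ring
  have ht2 : max t1 0 < τ := max_lt ht1 hτ.1
  have hmem2 := mem_ae hτ.1 k1
  refine core Fr (hom_tensL hm) hν hτ.1 hτ.2 ⟨hF1, hF⟩ k1 hκ₀ k3 (δ := ε) (γ := K) (σ := σ)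
    (t1 := max t1 0) hε0 hK hK1 hσ0 hσ1 ht2 (Λ := fun t => Cst * ‖B t‖ ^ (1 / (1 - s)))
    (fun t => by positivity) (hΛi.mono_set (Ioo_subset_Ioo_left (le_max_left _ _))) ?_
  filter_upwards [ae_mono (Measure.restrict_mono (Ioo_subset_Ioo_left (le_max_left _ _)) le_rfl) hyp,
    ae_mono (Measure.restrict_mono (Ioo_subset_Ioo_left (le_max_right _ _)) le_rfl) hmem2,
    ae_restrict_mem measurableSet_Ioo] with t h1 h2 htI
  obtain ⟨e1, e2, e3, e4, W, hW, e5⟩ := h1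
  have hp : 0 < τ - t := by linarith [htI.2]
  have hp52 : 0 ≤ (τ - t) ^ (-(5 / 2) : ℝ) := Real.rpow_nonneg hp.le _
  have key := comb2 hm (p := (deriv u t, deriv (gz (graphW Ω) u) t))
    (q := (u t, gz (graphW Ω) u t)) h2.2 hW e1 e3 (b := b) (ν := ν) (θ := θ)
    (B := K / (τ - t)) (Bw := ‖B t‖)
    (G := κ₀ ^ 2 * (3 / 2 - 2 * K) / 8 * ν ^ (5 / 2 : ℝ) * (τ - t) ^ (-(5 / 2) : ℝ)) (ε := ε)
    hb3 hb1 hν hθ (norm_nonneg _) (by positivity) hε0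
    (e2.trans (ENNReal.ofReal_le_ofReal (Real.le_norm_self _))) e4 e5
  refine key.trans (le_of_eq ?_)
  have a1 : θ + ε = 1 - ε := by rw [hε]; ring
  rw [a1]

end Pool.Agent.N327.AD
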