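import Pool.Agent.N327.AC.Mid

/-!
The production of the energy of the time derivative by the strain in its direction.
-/

set_option autoImplicit false
set_option linter.unusedSectionVars false

open MeasureTheory Set Filter Topology
open scoped InnerProductSpace ENNReal ContDiff NNReal

namespace Pool.Agent.N327.AD

open H772R2.NS Pool.Agent.TH301.EQ
open Pool.Agent.R462.HC (FB)
open Pool.Agent.N327.AC (hardy_le)

variable {Ω : Set E3}

/-- Young's inequality -/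
theorem young2 {A D V s ε : ℝ} (hA : 0 ≤ A) (hD : 0 ≤ D) (hV : 0 ≤ V) (hs0 : 0 ≤ s) (hs1 : s < 1)
    (hε : 0 < ε) : A * (V ^ (1 - s) * D ^ s) ^ 2 ≤ ε * D ^ 2
      + A ^ (1 / (1 - s)) * ε ^ (-(s / (1 - s))) * V ^ 2 := by
  have h1 : 0 < 1 - s := by linarith
  set P := A ^ (1 / (1 - s)) * ε ^ (-(s / (1 - s))) * V ^ 2 with hP
  set Q := ε * D ^ 2 with hQ
  have hP0 : 0 ≤ P := by positivity
  have hQ0 : 0 ≤ Q := by positivity
  have key := Real.geom_mean_le_arith_mean2_weighted h1.le hs0 hP0 hQ0 (by ring)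
  have e1 : P ^ (1 - s) = A * ε ^ (-s) * (V ^ (1 - s)) ^ 2 := by
    rw [hP, Real.mul_rpow (by positivity) (by positivity), Real.mul_rpow (by positivity)
      (by positivity), ← Real.rpow_mul hA, ← Real.rpow_mul hε.le, ← Real.rpow_natCast V,
      ← Real.rpow_mul hV, ← Real.rpow_natCast (V ^ (1 - s)), ← Real.rpow_mul hV]
    have a1 : 1 / (1 - s) * (1 - s) = 1 := by field_simp
    have a2 : -(s / (1 - s)) * (1 - s) = -s := by field_simp
    have a3 : ((2 : ℕ) : ℝ) * (1 - s) = (1 - s) * ((2 : ℕ) : ℝ) := by ring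
    rw [a1, a2, a3, Real.rpow_one]
  have e2 : Q ^ s = ε ^ s * (D ^ s) ^ 2 := by
    rw [hQ, Real.mul_rpow hε.le (by positivity), ← Real.rpow_natCast D, ← Real.rpow_mul hD,
      ← Real.rpow_natCast (D ^ s), ← Real.rpow_mul hD, mul_comm s]
  have e3 : P ^ (1 - s) * Q ^ s = A * (V ^ (1 - s) * D ^ s) ^ 2 := by
    rw [e1, e2]
    have a4 : ε ^ (-s) * ε ^ s = 1 := by
      rw [← Real.rpow_add hε]; simp
    calc _ = (ε ^ (-s) * ε ^ s) * (A * (V ^ (1 - s) * D ^ s) ^ 2) := by ring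
      _ = _ := by rw [a4, one_mul]
  rw [e3] at key
  refine key.trans ?_
  have : (1 - s) * P ≤ P := by nlinarith
  have : s * Q ≤ Q := by nlinarith
  linarith

/-- the trilinear form as an integral -/
theorem tri_eq (hΩ : MeasurableSet Ω) {p q : L2V Ω × L2M Ω} (hp : p ∈ graphW Ω) :
    Integrable (fun x => -⟪q.2 x, tens (p.1 x)⟫_ℝ) (volume.restrict Ω) ∧
    -⟪tensL p.1, q.2⟫_ℝ = ∫ x in Ω, -⟪q.2 x, tens (p.1 x)⟫_ℝ := by
  have e : (fun x => ⟪(tensL p.1 : E3 → M3) x, (q.2 : E3 → M3) x⟫_ℝ)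
      =ᵐ[volume.restrict Ω] fun x => ⟪q.2 x, tens (p.1 x)⟫_ℝ := by
    filter_upwards [tensL_coe hΩ hp] with x hx
    rw [hx, real_inner_comm]
  have i1 := (L2.integrable_inner (𝕜 := ℝ) (tensL p.1) q.2).congr e
  refine ⟨i1.neg, ?_⟩
  rw [L2.inner_def, integral_congr_ae e, integral_neg]

/-- the square of the norm as an integral, from a bound of the norm in `L²` -/
theorem int_sq_le {f : E3 → ℝ} (hf : AEStronglyMeasurable f (volume.restrict Ω)) {B : ℝ}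
    (hB : 0 ≤ B) (h : eLpNorm f 2 (volume.restrict Ω) ≤ ENNReal.ofReal B) :
    Integrable (fun x => f x ^ 2) (volume.restrict Ω) ∧ ∫ x in Ω, f x ^ 2 ≤ B ^ 2 := by
  have hm : MemLp f 2 (volume.restrict Ω) := ⟨hf, h.trans_lt ENNReal.ofReal_lt_top⟩
  refine ⟨hm.integrable_sq, ?_⟩
  have h1 : ‖hm.toLp‖ ≤ B := by
    rw [Lp.norm_toLp]
    exact ENNReal.toReal_le_of_le_ofReal hB h
  have h2 : ∫ x in Ω, f x ^ 2 = ‖hm.toLp‖ ^ 2 := by
    rw [← real_inner_self_eq_norm_sq, L2.inner_def]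
    refine integral_congr_ae ?_
    filter_upwards [hm.coeFn_toLp] with x h1
    rw [h1]
    simp [sq]
  rw [h2]
  exact pow_le_pow_left₀ (norm_nonneg _) h1 2

/-- the bound of the production of energy -/
theorem comb (hΩ : MeasurableSet Ω) {p q : L2V Ω × L2M Ω} (hp : p ∈ graphW Ω)
    {W : E3 → ℝ} (hW : FB Ω W) {w g : E3 → ℝ}
    (hw : AEStronglyMeasurable w (volume.restrict Ω))
    (hg : AEStronglyMeasurable g (volume.restrict Ω)) {b : ℝ≥0∞} {κ B Bw G : ℝ} (hb : 3 ≤ 2 * b)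
    (hκ : 0 ≤ κ) (hBw : 0 ≤ Bw) (hG : 0 ≤ G)
    (hwB : eLpNorm w b (volume.restrict Ω) ≤ ENNReal.ofReal Bw)
    (hgG : eLpNorm g 1 (volume.restrict Ω) ≤ ENNReal.ofReal G)
    (hle : ∀ᵐ x ∂(volume.restrict Ω), -⟪q.2 x, tens (p.1 x)⟫_ℝ
      ≤ (κ * W x + B + w x) * ‖p.1 x‖ ^ 2 + g x) :
    -⟪tensL p.1, q.2⟫_ℝ ≤ κ * ‖p.2‖ ^ 2 + B * ‖p.1‖ ^ 2
      + Bw * (‖p.1‖ ^ (1 - (3 / (2 * b)).toReal) * ((CS : ℝ) * ‖p.2‖) ^ (3 / (2 * b)).toReal) ^ 2
      + G := by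
  set θ := (3 / (2 * b)).toReal with hθ
  have hθ0 : 0 ≤ θ := ENNReal.toReal_nonneg
  have hθ1 : θ ≤ 1 := by
    have h1 : (3 : ℝ≥0∞) / (2 * b) ≤ 1 := by
      rcases eq_or_ne (2 * b) ⊤ with h | h
      · rw [h]; simp
      · rw [ENNReal.div_le_iff (by
          intro h0
          rw [h0] at hb
          simp at hb) h, one_mul]
        exact hb
    have := ENNReal.toReal_mono (by simp) h1
    rwa [ENNReal.toReal_one] at this
  have hvm : AEStronglyMeasurable (fun x => ‖p.1 x‖) (volume.restrict Ω) :=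
    (Lp.aestronglyMeasurable p.1).norm
  have hWm : AEStronglyMeasurable (fun x => Real.sqrt (W x)) (volume.restrict Ω) :=
    (Real.continuous_sqrt.measurable.comp_aemeasurable hW.meas).aestronglyMeasurable
  -- the potential
  obtain ⟨i1, n1⟩ := int_sq_le (Ω := Ω) (f := fun x => Real.sqrt (W x) * ‖p.1 x‖)
    (hWm.mul hvm) (norm_nonneg p.2) ((hardy_le hW hp).trans_eq (ofReal_norm _).symm)
  -- the velocity
  obtain ⟨i2, n2⟩ := int_sq_le (Ω := Ω) (f := fun x => ‖p.1 x‖) hvm (norm_nonneg p.1) (by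
    rw [ofReal_norm, eLpNorm_norm, Lp.enorm_def])
  -- the Serrin class
  set w' : E3 → ℝ := fun x => Real.sqrt ‖w x‖ with hw'
  have hw'm : AEStronglyMeasurable w' (volume.restrict Ω) :=
    Real.continuous_sqrt.comp_aestronglyMeasurable hw.norm
  have hw'B : eLpNorm w' (2 * b) (volume.restrict Ω) ≤ ENNReal.ofReal (Real.sqrt Bw) := by
    have e : eLpNorm (fun x => ‖w' x‖ ^ (2 : ℝ)) b (volume.restrict Ω)
        = eLpNorm w' (b * ENNReal.ofReal 2) (volume.restrict Ω) ^ (2 : ℝ) :=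
      eLpNorm_norm_rpow w' (by norm_num)
    have e2 : (fun x => ‖w' x‖ ^ (2 : ℝ)) = fun x => ‖w x‖ := by
      funext x
      rw [hw', Real.norm_of_nonneg (Real.sqrt_nonneg _), show (2 : ℝ) = ((2 : ℕ) : ℝ) by norm_num,
        Real.rpow_natCast, Real.sq_sqrt (norm_nonneg _)]
    have e3 : b * ENNReal.ofReal 2 = 2 * b := by
      rw [mul_comm]; norm_num
    rw [e2, e3, eLpNorm_norm] at e
    rw [e] at hwB
    have h2 : ENNReal.ofReal Bw = ENNReal.ofReal (Real.sqrt Bw) ^ (2 : ℝ) := by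
      rw [ENNReal.ofReal_rpow_of_nonneg (Real.sqrt_nonneg _) (by norm_num),
        show (2 : ℝ) = ((2 : ℕ) : ℝ) by norm_num, Real.rpow_natCast, Real.sq_sqrt hBw]
    rw [h2] at hwB
    exact (ENNReal.rpow_le_rpow_iff (by norm_num)).1 hwB
  obtain ⟨i3, n3⟩ := int_sq_le (Ω := Ω) (f := fun x => w' x * ‖p.1 x‖)
    (hw'm.mul hvm) (B := Real.sqrt Bw * (‖p.1‖ ^ (1 - θ) * ((CS : ℝ) * ‖p.2‖) ^ θ))
    (by positivity) (by
      have h1 := prod_le (μ := volume.restrict Ω) hw'm (Lp.aestronglyMeasurable p.1) hb hθ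
      have h6 := six_le hΩ hp
      refine h1.trans ?_
      rw [ENNReal.ofReal_mul (Real.sqrt_nonneg _), ENNReal.ofReal_mul (by positivity),
        ← ENNReal.ofReal_rpow_of_nonneg (norm_nonneg _) (by linarith),
        ← ENNReal.ofReal_rpow_of_nonneg (by positivity) hθ0, ENNReal.ofReal_mul (by positivity),
        ofReal_norm, ofReal_norm, ENNReal.ofReal_coe_nnreal]
      gcongr
      rw [Lp.enorm_def])
  -- the source
  have i4 : Integrable g (volume.restrict Ω) :=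
    memLp_one_iff_integrable.1 ⟨hg, hgG.trans_lt ENNReal.ofReal_lt_top⟩
  have n4 : ∫ x in Ω, g x ≤ G := by
    have h1 : ∫ x in Ω, g x ≤ ∫ x in Ω, ‖g x‖ :=
      integral_mono i4 i4.norm fun x => Real.le_norm_self _
    refine h1.trans ?_
    rw [integral_norm_eq_lintegral_enorm hg, ← eLpNorm_one_eq_lintegral_enorm]
    exact ENNReal.toReal_le_of_le_ofReal hG hgG
  obtain ⟨j1, j2⟩ := tri_eq hΩ (q := q) hp
  rw [j2]
  have hint : Integrable (fun x => κ * (Real.sqrt (W x) * ‖p.1 x‖) ^ 2 + B * ‖p.1 x‖ ^ 2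
      + (w' x * ‖p.1 x‖) ^ 2 + g x) (volume.restrict Ω) :=
    (((i1.const_mul κ).add (i2.const_mul B)).add i3).add i4
  calc ∫ x in Ω, -⟪q.2 x, tens (p.1 x)⟫_ℝ
      ≤ ∫ x in Ω, (κ * (Real.sqrt (W x) * ‖p.1 x‖) ^ 2 + B * ‖p.1 x‖ ^ 2
        + (w' x * ‖p.1 x‖) ^ 2 + g x) := by
        refine integral_mono_ae j1 hint ?_
        filter_upwards [hle] with x hx
        refine hx.trans ?_
        have h1 : (Real.sqrt (W x) * ‖p.1 x‖) ^ 2 = W x * ‖p.1 x‖ ^ 2 := by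
          rw [mul_pow, Real.sq_sqrt (hW.nonneg x)]
        have h2 : (w' x * ‖p.1 x‖) ^ 2 = ‖w x‖ * ‖p.1 x‖ ^ 2 := by
          rw [mul_pow, Real.sq_sqrt (norm_nonneg _)]
        rw [h1, h2]
        have h3 := mul_le_mul_of_nonneg_right (Real.le_norm_self (w x)) (sq_nonneg ‖p.1 x‖)
        linarith
    _ = κ * (∫ x in Ω, (Real.sqrt (W x) * ‖p.1 x‖) ^ 2) + B * (∫ x in Ω, ‖p.1 x‖ ^ 2)
        + (∫ x in Ω, (w' x * ‖p.1 x‖) ^ 2) + ∫ x in Ω, g x := by
        have k1 : Integrable (fun x => κ * (Real.sqrt (W x) * ‖p.1 x‖) ^ 2)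
          (volume.restrict Ω) := i1.const_mul κ
        have k2 : Integrable (fun x => B * ‖p.1 x‖ ^ 2) (volume.restrict Ω) := i2.const_mul B
        have k3 : Integrable (fun x => κ * (Real.sqrt (W x) * ‖p.1 x‖) ^ 2 + B * ‖p.1 x‖ ^ 2)
          (volume.restrict Ω) := k1.add k2
        have k4 : Integrable (fun x => κ * (Real.sqrt (W x) * ‖p.1 x‖) ^ 2 + B * ‖p.1 x‖ ^ 2
          + (w' x * ‖p.1 x‖) ^ 2) (volume.restrict Ω) := k3.add i3
        rw [integral_add k4 i4, integral_add k3 i3, integral_add k1 k2, integral_const_mul,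
          integral_const_mul]
    _ = κ * (∫ x in Ω, (Real.sqrt (W x) * ‖p.1 x‖) ^ 2) + B * ‖p.1‖ ^ 2
        + (∫ x in Ω, (w' x * ‖p.1 x‖) ^ 2) + ∫ x in Ω, g x := by
        congr 4
        rw [← real_inner_self_eq_norm_sq, L2.inner_def]
        refine integral_congr_ae (Eventually.of_forall fun x => ?_)
        simp only
        rw [real_inner_self_eq_norm_sq]
    _ ≤ _ := by
        have h5 : (Real.sqrt Bw * (‖p.1‖ ^ (1 - θ) * ((CS : ℝ) * ‖p.2‖) ^ θ)) ^ 2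
            = Bw * (‖p.1‖ ^ (1 - θ) * ((CS : ℝ) * ‖p.2‖) ^ θ) ^ 2 := by
          rw [mul_pow, Real.sq_sqrt hBw]
        have h6 := mul_le_mul_of_nonneg_left n1 hκ
        rw [h5] at n3
        linarith

/-- the bound of the production of energy, after Young's inequality -/
theorem comb2 (hΩ : MeasurableSet Ω) {p q : L2V Ω × L2M Ω} (hp : p ∈ graphW Ω)
    {W : E3 → ℝ} (hW : FB Ω W) {w g : E3 → ℝ}
    (hw : AEStronglyMeasurable w (volume.restrict Ω))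
    (hg : AEStronglyMeasurable g (volume.restrict Ω)) {b : ℝ≥0∞} {ν θ B Bw G ε : ℝ}
    (hb : 3 ≤ 2 * b) (hb1 : (3 / (2 * b)).toReal < 1)
    (hν : 0 < ν) (hθ : 0 ≤ θ) (hBw : 0 ≤ Bw) (hG : 0 ≤ G) (hε : 0 < ε)
    (hwB : eLpNorm w b (volume.restrict Ω) ≤ ENNReal.ofReal Bw)
    (hgG : eLpNorm g 1 (volume.restrict Ω) ≤ ENNReal.ofReal G)
    (hle : ∀ᵐ x ∂(volume.restrict Ω), -⟪q.2 x, tens (p.1 x)⟫_ℝ
      ≤ (θ * ν * W x + B + w x) * ‖p.1 x‖ ^ 2 + g x) :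
    -⟪tensL p.1, q.2⟫_ℝ ≤ (θ + ε) * ν * ‖p.2‖ ^ 2 + (B
      + (((CS : ℝ) ^ (3 / (2 * b)).toReal) ^ 2) ^ (1 / (1 - (3 / (2 * b)).toReal))
        * (ε * ν) ^ (-((3 / (2 * b)).toReal / (1 - (3 / (2 * b)).toReal)))
        * Bw ^ (1 / (1 - (3 / (2 * b)).toReal))) * ‖p.1‖ ^ 2 + G := by
  have h := comb hΩ (q := q) hp hW hw hg hb (mul_nonneg hθ hν.le) hBw hG hwB hgG hle
  set s := (3 / (2 * b)).toReal with hs
  have hs0 : 0 ≤ s := ENNReal.toReal_nonneg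
  set D := ‖p.2‖ with hD
  set V := ‖p.1‖ with hV
  have hD0 : 0 ≤ D := norm_nonneg _
  have hV0 : 0 ≤ V := norm_nonneg _
  have hC : (0 : ℝ) ≤ CS := NNReal.coe_nonneg _
  have y := young2 (A := Bw * ((CS : ℝ) ^ s) ^ 2) (D := D) (V := V) (s := s) (ε := ε * ν)
    (by positivity) hD0 hV0 hs0 hb1 (by positivity)
  have e1 : Bw * (V ^ (1 - s) * ((CS : ℝ) * D) ^ s) ^ 2
      = Bw * ((CS : ℝ) ^ s) ^ 2 * (V ^ (1 - s) * D ^ s) ^ 2 := by
    rw [Real.mul_rpow hC hD0]; ring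
  have e2 : (Bw * ((CS : ℝ) ^ s) ^ 2) ^ (1 / (1 - s))
      = (((CS : ℝ) ^ s) ^ 2) ^ (1 / (1 - s)) * Bw ^ (1 / (1 - s)) := by
    rw [Real.mul_rpow hBw (by positivity)]; ring
  rw [e1] at h
  rw [e2] at y
  linarith

end Pool.Agent.N327.AD
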